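import Pool.Agent.R552.FB.Main

/-!
# Converse of the `Ω`-stability theorem for compositions of Hamiltonian and dissipative maps

Definitions: `Pool/Agent/R552/FB/Defs.lean` (`TimeOne`, `Comp`, `Conservative`),
`Pool/Agent/R552/FA/Defs.lean` (`Fld`, `Traj`, `IsCr`, `Smooth`, `diff`),
`Pool/Agent/R552/FA/Ham.lean` (`Jd`, `Dissipative`), `Pool/Agent/H718R2/G0.lean` (`DiffM`,
`strongTop`), `Pool/Agent/TH80/OMS/Defs.lean` and `CycDefs.lean` (`OmegaStable`, `Omega`, `Per`,
`FiniteNoCycle`), `Pool/Agent/Y504/CO/Rob.lean` (`IsHyperbolicPer`).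
-/

set_option autoImplicit false

open scoped Manifold ContDiff Topology

universe u

namespace Pool.Agent.Results.MP_814647_an.HamiltonianCompositions

open Pool.Agent.H718R2.G Pool.Agent.TH80.OMS Pool.Agent.Y504.CO Pool.Agent.R552.FA
  Pool.Agent.R552.FB

/-- `F` is a limit in `Diff^r(N)` of diffeomorphisms `G` which are finite compositions of time-one
maps of vector fields `J dh`, with one smooth function `h` and fields `J` with the property `D`
(`h` and the `J` depend on `G`). -/
def LimitOfComp (n : ℕ) (N : Type u) [TopologicalSpace N] [ChartedSpace (V n) N]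
    (r : ℕ∞) (D : (N → (V n →L[ℝ] ℝ) →ₗ[ℝ] V n) → Prop) (F : DiffM n N r) : Prop :=
  ∀ U : Set (DiffM n N r), IsOpen[strongTop n N r] U → F ∈ U →
    ∃ G ∈ U, ∃ h : N → ℝ, Smooth (V n) h ∧ Comp D h G

/-- Let `N` be a closed manifold of dimension `n` and `1 ≤ r ≤ ∞`.

1. Let `F` be `Ω`-stable and a limit in `Diff^r(N)` of finite compositions of time-one maps of
vector fields `J dh`, with a common smooth `h` and smooth `J` with `ξ(Jξ) ≥ 0`. Then `Ω(F)` is
finite and consists of hyperbolic periodic points, and `F` has no cycles.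
2. If `F` is a limit of such compositions with `ξ(Jξ) = 0` (for instance Hamiltonian maps), and
`N` is nonempty of dimension `n ≥ 1`, then `F` is not `Ω`-stable. -/
theorem result (n : ℕ) (N : Type u) [TopologicalSpace N] [T2Space N] [CompactSpace N]
    [ChartedSpace (V n) N] [IsManifold (𝓡 n) ∞ N] (r : ℕ∞) (hr : 1 ≤ r) (F : DiffM n N r) :
    (LimitOfComp n N r (Dissipative ⊤) F → OmegaStable n N r F →
      FiniteNoCycle F ∧ ∀ p ∈ Omega F, IsHyperbolicPer n F p) ∧
    (LimitOfComp n N r (Conservative (E := V n) (N := N)) F → n ≠ 0 → Nonempty N →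
      ¬ OmegaStable n N r F) :=
  ⟨fun h hs => stable (D := Dissipative ⊤) (fun _ h => h) hr F h hs,
    fun h hn hN => not_stable hn hr F h⟩

end Pool.Agent.Results.MP_814647_an.HamiltonianCompositions
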