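import Pool.Agent.R775.HL.Om

/-!
# `Ω`-stable diffeomorphisms and sets which are hyperbolic transversally to orbits of compact Lie groups

`V n = ℝⁿ`, `DiffM n N r = Diff^r(N)`, `strongTop n N r` is its `C^r` topology
(`Pool/Agent/H718R2/G0.lean`); `OmegaStable`, `Omega`, `Per` (`Pool/Agent/TH80/OMS/Defs.lean`,
`SymDefs.lean`): `Ω`-stability, nonwandering set, periodic points; `CR F` is the chain recurrent set
(`Pool/Agent/R774/OS2.lean`).

`CompactTrans n F k K` (`Pool/Agent/R775/HL/Om.lean`, `Defs.lean`): a compact Lie group `G`, not
necessarily abelian or connected, acts smoothly on an open set `O ⊇ K` and commutes there with `F`; the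
closed set `K` is a union of orbits, `F K ⊆ K`, and on `K` the map `F` is hyperbolic transversally to the
orbits: there are maps `Φ s`, `s ∈ ℝᵏ`, of class `C¹`, `Φ 0 = id`, which move the points of `O` inside
their orbits, with injective derivative in `s` on `K`, and continuous quadratic forms
`Q_x(v) = B_x (De v, De v)`, of any signature, which do not change in the directions of `Φ` and increase
strictly under `DF` on all other vectors. For `k = 0` the set `K` is hyperbolic.
-/

set_option autoImplicit false

open scoped Manifold ContDiff Topology

namespace Pool.Agent.Results.MP_814647_an.NoCompactLeaves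

open Pool.Agent.H718R2.G Pool.Agent.R775.HL Pool.Agent.R774.OS Pool.Agent.TH80.OMS

/-- Let `N` be a closed manifold, `1 ≤ r ≤ ∞`, and let `F ∈ Diff^r(N)` be `Ω`-stable.

1. For all `G` in a neighbourhood of `F` (for instance `G = F`): if some nonempty closed invariant set
   of `G` is hyperbolic transversally to the orbits of a compact Lie group commuting with `G` near it,
   with `k` parameters, then `k = 0`.
2. If the chain recurrent set of `F` is the disjoint union of finitely many such sets `K i` (each with its
   own group, defined near `K i` only), then `k i = 0` if `K i` is nonempty, and the chain recurrent set,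
   the nonwandering set and the closure of the set of the periodic points are equal. -/
theorem result {n : ℕ} {N : Type} [TopologicalSpace N] [T2Space N] [CompactSpace N]
    [ChartedSpace (V n) N] [IsManifold (𝓡 n) ∞ N] (r : ℕ∞) (hr : 1 ≤ r) (F : DiffM n N r)
    (hF : OmegaStable n N r F) :
    (∃ U : Set (DiffM n N r), IsOpen[strongTop n N r] U ∧ F ∈ U ∧ ∀ G ∈ U,
      ∀ (k : ℕ) (K : Set N), CompactTrans n G k K → K.Nonempty → k = 0) ∧
    (∀ (ι : Type) (k : ι → ℕ) (K : ι → Set N), Finite ι → (∀ i, CompactTrans n F (k i) (K i)) →
      (∀ i j, i ≠ j → Disjoint (K i) (K j)) → ⋃ i, K i = CR F →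
      (∀ i, (K i).Nonempty → k i = 0) ∧ CR F = closure (Per F) ∧ Omega F = closure (Per F)) :=
  ⟨cpt_rank_zero r hr hF, fun ι k K hfin hK hdis hun => by
    have := hfin
    exact cpt_main r hr hF hK hdis hun⟩

end Pool.Agent.Results.MP_814647_an.NoCompactLeaves
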