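import Pool.Agent.R773.TE.Fin

/-!
# `Ω`-stable toral extensions, all classes `C^r`

`DiffM n N r` is `Diff^r(N)` and `strongTop n N r` its `C^r` topology (`Pool/Agent/H718R2/G0.lean`),
`IsHypLin`: `Pool/Agent/H922R3/CL/Defs.lean`, `OmegaStable`, `Omega`, `OmegaConj`:
`Pool/Agent/TH80/OMS/Defs.lean`, `Per`: `Pool/Agent/TH80/OMS/SymDefs.lean`, `FiniteNoCycle`:
`Pool/Agent/TH80/OMS/CycDefs.lean`, `IsHyperbolicPer`: `Pool/Agent/Y504/CO/Rob.lean`, `Rec`:
`Pool/Agent/Y504/CO/Stm5.lean`; all other definitions: `Pool/Agent/R773/TE/Defs.lean`.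
-/

set_option autoImplicit false

open scoped Manifold ContDiff Topology

universe u v w

namespace Pool.Agent.Results.MP_814647_an.ToralExtensions

open Pool.Agent.H718R2.G Pool.Agent.TH80.OMS Pool.Agent.Y504.CO Pool.Agent.R773.TE

/-- Let `1 ≤ r ≤ ∞`, let `N` and `B` be closed manifolds, `K` a smooth manifold homeomorphic (by
`τ`) to a torus `𝕋 = W / Λ` of positive dimension, `Θ : B × K → N` a diffeomorphism, and let
`F ∈ Diff^r(N)` be `Ω`-stable and, in the coordinates `Θ`, `τ`, a skew product
`(b, y) ↦ (f b, A y + φ (b, y))` over an ARBITRARY `f ∈ Diff^r(B)`, where `A` is a hyperbolic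
automorphism of `𝕋` and `φ : B × 𝕋 → W` is any continuous map. Then `f` has a neighbourhood `U` in
`Diff^r(B)` such that:

(1) for all `g ∈ U`: the nonwandering set of `g` is the closure of the set of periodic points of
`g`, all periodic points of `g` are hyperbolic, and for every `m ≥ 1` there are finitely many points
with `g^m b = b`;
(2) if `B` is a circle then all `g ∈ U` (among them `f`) are in `U₃`, with finite nonwandering sets:
`Ω(g)` is finite, consists of hyperbolic periodic points, and there are no cycles;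
(3) if the fibre maps are Lipschitz-close to affine maps (`φ` is `ε₀`-Lipschitz along the fibres,
where `ε₀ > 0` depends only on `A`; for instance if `φ` does not depend on `y`) then:
(a) `Ω(F)` is the closure of the set of periodic points of `F`, and it is the preimage of `Ω(f)`;
(b) all `g ∈ U` have as many points with `g^m b = b` as `f`, for every `m ≥ 1`;
(c) if `Ω(f)` is totally disconnected then all `g ∈ U` are `Ω`-conjugate to `f`, so `f` is
`Ω`-stable;
(d) if `f` has only countably many nonperiodic recurrent points then all `g ∈ U` are in `U₃`, with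
finite nonwandering sets. -/
theorem result {n d k : ℕ} {W : Type} [NormedAddCommGroup W] [NormedSpace ℝ W]
    [FiniteDimensional ℝ W] [Nontrivial W] {Λ : AddSubgroup W} [DiscreteTopology Λ]
    [IsClosed (Λ : Set W)] {A : W ≃L[ℝ] W} (hA : IsHypAut A Λ) :
    ∃ ε₀ > 0, ∀ (N : Type u) [TopologicalSpace N] [T2Space N] [CompactSpace N]
      [ChartedSpace (V n) N] [IsManifold (𝓡 n) ∞ N]
      (B : Type v) [TopologicalSpace B] [T2Space B] [CompactSpace B]
      [ChartedSpace (V d) B] [IsManifold (𝓡 d) ∞ B]
      (K : Type w) [TopologicalSpace K] [ChartedSpace (V k) K] [IsManifold (𝓡 k) ∞ K]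
      (r : ℕ∞) (F : DiffM n N r) (f : DiffM d B r) (Θ : ProdDiff n d k N B K)
      (φ : B × (W ⧸ Λ) → W), 1 ≤ r → OmegaStable n N r F → IsExt A Θ F f φ →
      ∃ U : Set (DiffM d B r), IsOpen[strongTop d B r] U ∧ f ∈ U ∧ (∀ g ∈ U, PerHyp g) ∧
        (Nonempty (B ≃ₜ AddCircle (1 : ℝ)) → ∀ g ∈ U, FinU3 g) ∧
        (FibLip ε₀ φ → LipConcl Θ F f U) :=
  final hA

end Pool.Agent.Results.MP_814647_an.ToralExtensions
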