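import Pool.Agent.R774.OS2

/-!
# `Ω`-stable diffeomorphisms and sets which are hyperbolic transversally to a commuting action

`V n = ℝⁿ`, `DiffM n N r = Diff^r(N)`, `strongTop n N r` is its `C^r` topology
(`Pool/Agent/H718R2/G0.lean`); `OmegaStable`, `Omega`, `Per` (`Pool/Agent/TH80/OMS/Defs.lean`,
`SymDefs.lean`): `Ω`-stability, nonwandering set, periodic points.

`HypSet F Φ K e B` (`Pool/Agent/R774/ClStmt.lean`): `K` is closed, `F K ⊆ K`, near `K` the map `F`
commutes with the smooth action `Φ` of `ℝᵏ`, which is locally free on `K`, and on `K` the map `F` is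
hyperbolic transversally to the orbits of `Φ`: the quadratic forms `Q_x(v) = B_x (De v, De v)` (of any
signature) do not change in the direction of the orbits and increase strictly under `DF` on all other
vectors. For `k = 0`: `K` is a hyperbolic set. `CR F` is the chain recurrent set.
-/

set_option autoImplicit false

open scoped Manifold ContDiff Topology

namespace Pool.Agent.Results.MP_814647_an.TransverselyHyperbolicSets

open Pool.Agent.H718R2.G Pool.Agent.R774.ClStmt Pool.Agent.R774.OS Pool.Agent.TH80.OMS

/-- The closed set `K` is invariant under `G` and hyperbolic transversally to the orbits of a smooth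
action of `ℝᵏ`, locally free on `K`, which commutes with `G` near `K`. -/
def TransHyp (n : ℕ) {N : Type} [TopologicalSpace N] [ChartedSpace (V n) N] (G : N → N) (k : ℕ)
    (K : Set N) : Prop :=
  ∃ (m : ℕ) (Φ : V k → N → N) (e : N → V m) (B : N → V m →L[ℝ] V m →L[ℝ] ℝ),
    HypSet (n := n) G Φ K e B

/-- Let `N` be a closed manifold, `1 ≤ r ≤ ∞`, and let `F ∈ Diff^r(N)` be `Ω`-stable.

1. For all `G` in a neighbourhood of `F` (for instance `G = F`): if some nonempty closed invariant set
   of `G` is hyperbolic transversally to a locally free action of `ℝᵏ` which commutes with `G`, then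
   `k = 0`.
2. If the chain recurrent set of `F` is the disjoint union of finitely many closed sets `K i`, each of
   them hyperbolic transversally to a locally free action of some `ℝ^(k i)` which commutes with `F` near
   `K i`, then `k i = 0` if `K i` is nonempty, and the periodic points are dense in the chain recurrent
   set, which is equal to the nonwandering set. -/
theorem result {n : ℕ} {N : Type} [TopologicalSpace N] [T2Space N] [CompactSpace N]
    [ChartedSpace (V n) N] [IsManifold (𝓡 n) ∞ N] (r : ℕ∞) (hr : 1 ≤ r) (F : DiffM n N r)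
    (hF : OmegaStable n N r F) :
    (∃ U : Set (DiffM n N r), IsOpen[strongTop n N r] U ∧ F ∈ U ∧ ∀ G ∈ U,
      ∀ (k : ℕ) (K : Set N), TransHyp n G k K → K.Nonempty → k = 0) ∧
    (∀ (ι : Type) (k : ι → ℕ) (K : ι → Set N), Finite ι → (∀ i, TransHyp n F (k i) (K i)) →
      (∀ i j, i ≠ j → Disjoint (K i) (K j)) → ⋃ i, K i = CR F →
      (∀ i, (K i).Nonempty → k i = 0) ∧ CR F = closure (Per F) ∧ Omega F = closure (Per F)) := by
  constructor
  · obtain ⟨U, hU, hFU, h⟩ := rank_zero r hr hF
    refine ⟨U, hU, hFU, fun G hG k K hK hne => ?_⟩
    obtain ⟨m, Φ, e, B, hyp⟩ := hK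
    exact h G hG k m Φ K e B hyp hne
  · intro ι k K hfin hK hdis hun
    have := hfin
    choose m Φ e B hyp using hK
    exact main r hr hF hyp hdis hun

end Pool.Agent.Results.MP_814647_an.TransverselyHyperbolicSets
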